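import Pool.Agent.Lib.MP_abd978_an.UN.Interfaces
import Pool.Agent.Lib.MP_abd978_an.H34.Norm

/-!
# Module LOCM: localisation

Near a point at which the weight is bounded above and below, `𝒜` is an operator with structure
conditions for the Lebesgue measure; the weight is truncated elsewhere.
-/

set_option autoImplicit false

open MeasureTheory Metric Set Filter Topology ContDiff
open scoped Gradient RealInnerProductSpace NNReal ENNReal

namespace Pool.Agent.Lib.MP_abd978_an.UN.H48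

variable {n : ℕ} {p : ℝ}

theorem isSob_of_le {μ ν : Measure (E n)} {K : ℝ≥0∞} (hK : K ≠ ⊤) {D : Set (E n)}
    (h : ν.restrict D ≤ K • μ.restrict D) {u : E n → ℝ} {v : E n → E n}
    (hs : IsSob μ p D u v) : IsSob ν p D u v := by
  obtain ⟨h1, h2, φ, h3, h4, h5⟩ := hs
  have key : ∀ {F : Type} [NormedAddCommGroup F] (g : ℕ → E n → F),
      Tendsto (fun i => eLpNorm (g i) (ENNReal.ofReal p) (μ.restrict D)) atTop (𝓝 0) →
      Tendsto (fun i => eLpNorm (g i) (ENNReal.ofReal p) (ν.restrict D)) atTop (𝓝 0) := by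
    intro F _ g hg
    have hc : K ^ (1 / ENNReal.ofReal p).toReal ≠ ⊤ :=
      ENNReal.rpow_ne_top_of_nonneg ENNReal.toReal_nonneg hK
    have h6 := ENNReal.Tendsto.const_mul hg (Or.inr hc)
    rw [mul_zero] at h6
    exact tendsto_of_tendsto_of_tendsto_of_le_of_le tendsto_const_nhds h6 (fun _ => bot_le)
      fun i => eLpNorm_le_of_measure_le_smul h
  exact ⟨h1.of_measure_le_smul hK h, h2.of_measure_le_smul hK h, φ, h3, key _ h4, key _ h5⟩

theorem isSob_congr {μ : Measure (E n)} {D : Set (E n)} (hD : MeasurableSet D)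
    {u u' : E n → ℝ} {v : E n → E n} (h : ∀ x ∈ D, u x = u' x) (hs : IsSob μ p D u v) :
    IsSob μ p D u' v := by
  obtain ⟨h1, h2, φ, h3, h4, h5⟩ := hs
  have hae : ∀ᵐ x ∂(μ.restrict D), u x = u' x :=
    (ae_restrict_iff' hD).2 (Eventually.of_forall h)
  refine ⟨h1.ae_eq hae, h2, φ, h3, h4.congr fun i => eLpNorm_congr_ae ?_, h5⟩
  filter_upwards [hae] with x hx
  rw [hx]

theorem harm_congr {μ : Measure (E n)} {a : E n → E n → E n} {U : Set (E n)} {u u' : E n → ℝ}
    (h : ∀ x ∈ U, u x = u' x) (hu : Harm μ p a U u) : Harm μ p a U u' := by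
  obtain ⟨h1, v, h2, h3⟩ := hu
  exact ⟨h1.congr fun x hx => (h x hx).symm, v, fun D hD hc hs =>
    isSob_congr hD.measurableSet (fun x hx => h x (hs (subset_closure hx))) (h2 D hD hc hs), h3⟩

theorem wm_le {w : E n → ℝ} {D : Set (E n)} {C : ℝ} (hD : MeasurableSet D)
    (h : ∀ᵐ y : E n, y ∈ D → w y ≤ C) :
    (wm w).restrict D ≤ ENNReal.ofReal C • (volume : Measure (E n)).restrict D := by
  rw [wm, restrict_withDensity hD, ← withDensity_const]
  refine withDensity_mono ?_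
  rw [Filter.EventuallyLE, ae_restrict_iff' hD]
  filter_upwards [h] with x hx hxD
  exact ENNReal.ofReal_le_ofReal (hx hxD)

theorem le_wm {w : E n → ℝ} {D : Set (E n)} {c : ℝ} (hc : 0 < c) (hD : MeasurableSet D)
    (h : ∀ᵐ y : E n, y ∈ D → c ≤ w y) :
    (volume : Measure (E n)).restrict D ≤ ENNReal.ofReal c⁻¹ • (wm w).restrict D := by
  have h1 : ENNReal.ofReal c • (volume : Measure (E n)).restrict D ≤ (wm w).restrict D := by
    rw [wm, restrict_withDensity hD, ← withDensity_const]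
    refine withDensity_mono ?_
    rw [Filter.EventuallyLE, ae_restrict_iff' hD]
    filter_upwards [h] with x hx hxD
    exact ENNReal.ofReal_le_ofReal (hx hxD)
  calc (volume : Measure (E n)).restrict D =
      ENNReal.ofReal c⁻¹ • (ENNReal.ofReal c • (volume : Measure (E n)).restrict D) := by
        rw [smul_smul, ← ENNReal.ofReal_mul (inv_nonneg.2 hc.le), inv_mul_cancel₀ hc.ne',
          ENNReal.ofReal_one, one_smul]
    _ ≤ _ := by gcongr

/-- where the weight is bounded above and below, the two notions of harmonic functions agree -/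
theorem harm_iff {w : E n → ℝ} {A a : E n → E n → E n} {B : Set (E n)} {c C : ℝ} (hc : 0 < c)
    (hw : ∀ᵐ y : E n, y ∈ B → c ≤ w y ∧ w y ≤ C)
    (hA : ∀ᵐ y : E n, y ∈ B → ∀ ξ, A y ξ = a y ξ) {U : Set (E n)} (hU : U ⊆ B) (u : E n → ℝ) :
    IsHarmonic p w A U u ↔ Harm volume p a U u := by
  have key : ∀ (v : E n → E n) (φ : E n → ℝ), tsupport φ ⊆ U →
      ∫ x, ⟪a x (v x), ∇ φ x⟫ = ∫ x, ⟪A x (v x), ∇ φ x⟫ := by
    intro v φ hφ
    refine integral_congr_ae ?_
    filter_upwards [hA] with x hx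
    by_cases h : x ∈ tsupport φ
    · rw [hx (hU (hφ h))]
    · rw [grad_eq_zero_of_notMem h, inner_zero_right, inner_zero_right]
  have k1 : ∀ D : Set (E n), IsOpen D → D ⊆ U →
      (wm w).restrict D ≤ ENNReal.ofReal C • (volume : Measure (E n)).restrict D := by
    intro D hD hDU
    refine wm_le hD.measurableSet ?_
    filter_upwards [hw] with y hy hyD
    exact (hy (hU (hDU hyD))).2
  have k2 : ∀ D : Set (E n), IsOpen D → D ⊆ U →
      (volume : Measure (E n)).restrict D ≤ ENNReal.ofReal c⁻¹ • (wm w).restrict D := by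
    intro D hD hDU
    refine le_wm hc hD.measurableSet ?_
    filter_upwards [hw] with y hy hyD
    exact (hy (hU (hDU hyD))).1
  constructor
  · rintro ⟨h1, v, h2, h3⟩
    refine ⟨h1, v, fun D hD hDc hDU => ?_, fun φ hφ => ?_⟩
    · exact isSob_of_le ENNReal.ofReal_ne_top (k2 D hD (subset_closure.trans hDU))
        (h2 D hD hDc hDU)
    · rw [key v φ hφ.2.2]
      exact h3 φ hφ.1 hφ.2.1 hφ.2.2
  · rintro ⟨h1, v, h2, h3⟩
    refine ⟨h1, v, fun D hD hDc hDU => ?_, fun φ hφ1 hφ2 hφ3 => ?_⟩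
    · exact isSob_of_le ENNReal.ofReal_ne_top (k1 D hD (subset_closure.trans hDU))
        (h2 D hD hDc hDU)
    · rw [← key v φ hφ3]
      exact h3 φ ⟨hφ1, hφ2, hφ3⟩

/-- the operator with the truncated weight -/
theorem exists_clamp (hG : GeovStatement) (hn : 1 ≤ n) (hnp : (n : ℝ) < p) {w : E n → ℝ}
    {A : E n → E n → E n} (hA : ClassA p w A) {x : E n} (hw : Bdd w x) :
    ∃ (a : E n → E n → E n) (α β r : ℝ), Op p volume a α β ∧ 0 < r ∧
      ∀ (U : Set (E n)) (u : E n → ℝ), U ⊆ ball x r →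
        (IsHarmonic p w A U u ↔ Harm volume p a U u) := by
  obtain ⟨hadm, α, β, hα, hαβ, hS⟩ := hA
  obtain ⟨c, C, r, hc, hr, hwb⟩ := hw
  have hwm : AEMeasurable w := hadm.locInt.aestronglyMeasurable.aemeasurable
  obtain ⟨a, hmeas, hgood, hae⟩ := H34.exists_op hwm hadm.pos hS
  obtain ⟨W, hW⟩ : ∃ W : E n → ℝ, ∀ y, W y = max c (min (max c C) (hwm.mk w y)) :=
    ⟨_, fun y => rfl⟩
  have hWm : Measurable W := by
    have h1 : W = fun y => max c (min (max c C) (hwm.mk w y)) := funext hW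
    rw [h1]
    exact measurable_const.max (measurable_const.min hwm.measurable_mk)
  have hWc : ∀ y, c ≤ W y := fun y => by
    rw [hW]
    exact le_max_left _ _
  have hWC : ∀ y, W y ≤ max c C := fun y => by
    rw [hW]
    exact max_le (le_max_left _ _) (min_le_left _ _)
  have hWpos : ∀ y, 0 < W y := fun y => hc.trans_le (hWc y)
  have hβ : 0 < β := hα.trans_le hαβ
  refine ⟨fun y ξ => W y • a y ξ, α * c, β * max c C, r, ⟨hG n p hn hnp, mul_pos hα hc,
    mul_le_mul hαβ (le_max_left _ _) hc.le hβ.le, ?_, fun y => ?_, fun y ξ => ?_, fun y ξ => ?_,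
    fun y ξ η hne => ?_, fun y l ξ hl => ?_, fun y ξ => ?_⟩, hr, ?_⟩
  · exact (hWm.comp measurable_fst).smul hmeas
  · exact (hgood y).cont.const_smul (W y)
  · rw [real_inner_smul_left]
    have h1 := (hgood y).ell ξ
    have h2 : 0 ≤ α * ‖ξ‖ ^ p := by positivity
    calc α * c * ‖ξ‖ ^ p = c * (α * ‖ξ‖ ^ p) := by ring
      _ ≤ W y * (α * ‖ξ‖ ^ p) := mul_le_mul_of_nonneg_right (hWc y) h2
      _ ≤ _ := mul_le_mul_of_nonneg_left h1 (hWpos y).le
  · rw [norm_smul, Real.norm_of_nonneg (hWpos y).le]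
    have h1 := (hgood y).bdd ξ
    have h2 : 0 ≤ β * ‖ξ‖ ^ (p - 1) := by positivity
    calc W y * ‖a y ξ‖ ≤ W y * (β * ‖ξ‖ ^ (p - 1)) := mul_le_mul_of_nonneg_left h1 (hWpos y).le
      _ ≤ max c C * (β * ‖ξ‖ ^ (p - 1)) := mul_le_mul_of_nonneg_right (hWC y) h2
      _ = _ := by ring
  · rw [← smul_sub, real_inner_smul_left]
    exact mul_pos (hWpos y) ((hgood y).mono ξ η hne)
  · show W y • a y (l • ξ) = l ^ (p - 1) • W y • a y ξ
    rw [(hgood y).hom l ξ hl, smul_comm]
  · show W y • a y (-ξ) = -(W y • a y ξ)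
    rw [(hgood y).neg, smul_neg]
  · intro U u hU
    refine harm_iff hc hwb ?_ hU u
    filter_upwards [hae, hwb, hwm.ae_eq_mk] with y h1 h2 h3 hy ξ
    obtain ⟨h4, h5⟩ := h2 hy
    rw [h1 ξ, hW, ← h3, min_eq_right (h5.trans (le_max_right _ _)), max_eq_right h4]

/-- a continuous function, extended by zero -/
theorem measurable_indicator {B : Set (E n)} (hB : MeasurableSet B) {f : E n → E n}
    (hf : ContinuousOn f B) : Measurable (B.indicator f) := by
  classical
  rw [← piecewise_eq_indicator]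
  exact hf.measurable_piecewise continuousOn_const hB

/-- the localised morphism -/
theorem mor_of {w : E n → ℝ} {A : E n → E n → E n} {w' : E n → ℝ} {A' : E n → E n → E n}
    {a b : E n → E n → E n} {Ω B B' : Set (E n)} {f : E n → E n} (hB : IsOpen B)
    (hB' : IsOpen B') (hBΩ : B ⊆ Ω ∩ f ⁻¹' B') (hf : IsMorphism p w' A' w A Ω f)
    (ha : ∀ (U : Set (E n)) (u : E n → ℝ), U ⊆ B' → (IsHarmonic p w A U u ↔ Harm volume p a U u))
    (hb : ∀ (U : Set (E n)) (u : E n → ℝ), U ⊆ B →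
      (IsHarmonic p w' A' U u ↔ Harm volume p b U u)) : Mor p a b B (B.indicator f) := by
  obtain ⟨hc, hm⟩ := hf
  have heq : ∀ y ∈ B, B.indicator f y = f y := fun y hy => indicator_of_mem hy f
  have hcont : ContinuousOn f B := hc.mono fun y hy => (hBΩ hy).1
  refine ⟨hB, hcont.congr heq, measurable_indicator hB.measurableSet hcont, ?_⟩
  intro V u hV hu
  have h2 : IsHarmonic p w A (V ∩ B') u := (ha _ u inter_subset_right).2 (hu.mono inter_subset_left)
  have h3 := hm _ u (hV.inter hB') h2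
  have h4 : B ∩ B.indicator f ⁻¹' V ⊆ Ω ∩ f ⁻¹' (V ∩ B') := by
    rintro y ⟨hy, hy'⟩
    rw [mem_preimage, heq y hy] at hy'
    exact ⟨(hBΩ hy).1, hy', (hBΩ hy).2⟩
  have h5 : IsHarmonic p w' A' (B ∩ B.indicator f ⁻¹' V) (u ∘ f) := by
    obtain ⟨e1, v, e2, e3⟩ := h3
    exact ⟨e1.mono h4, v, fun D hD hDc hDU => e2 D hD hDc (hDU.trans h4),
      fun φ hφ1 hφ2 hφ3 => e3 φ hφ1 hφ2 (hφ3.trans h4)⟩
  refine harm_congr (fun y hy => ?_) ((hb _ (u ∘ f) inter_subset_left).1 h5)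
  show u (f y) = u (B.indicator f y)
  rw [heq y hy.1]

theorem locm (hG : GeovStatement) : LocmStatement := by
  intro n p w A w' A' Ω f x hn hnp hA hA' hΩ hf hx hw' hw
  have hn1 : 1 ≤ n := by omega
  obtain ⟨a, α, β, ρ, hopa, hρ, ha⟩ := exists_clamp hG hn1 hnp hA hw
  obtain ⟨b, α', β', ρ', hopb, hρ', hb⟩ := exists_clamp hG hn1 hnp hA' hw'
  -- the radius
  have h0 : f x ∈ ball (f x) ρ := mem_ball_self hρ
  have h1 : Ω ∩ f ⁻¹' ball (f x) ρ ∈ 𝓝 x :=
    (hf.1.isOpen_inter_preimage hΩ isOpen_ball).mem_nhds ⟨hx, h0⟩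
  obtain ⟨r₁, hr₁, hr₁'⟩ := Metric.mem_nhds_iff.1 h1
  have hsub : ball x (min r₁ ρ') ⊆ Ω ∩ f ⁻¹' ball (f x) ρ :=
    (ball_subset_ball (min_le_left _ _)).trans hr₁'
  exact ⟨min r₁ ρ', a, α, β, b, α', β', lt_min hr₁ hρ', fun y hy => (hsub hy).1,
    ⟨hn, hnp, hopa, hopb⟩, mor_of isOpen_ball isOpen_ball hsub hf ha
      fun U u hU => hb U u (hU.trans (ball_subset_ball (min_le_right _ _)))⟩

end Pool.Agent.Lib.MP_abd978_an.UN.H48
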