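import Pool.Agent.Lib.MP_abd978_an.UN.Interfaces
import Pool.Agent.Lib.MP_abd978_an.H65.Dir

/-!
# Modules SOLVE and SBOUND: the equation `div a(x, ∇ u) = div H` in a ball
-/

set_option autoImplicit false

open MeasureTheory Metric Set Filter Topology ContDiff
open scoped Gradient RealInnerProductSpace NNReal ENNReal

namespace Pool.Agent.Lib.MP_abd978_an.UN.H48

open Pool.Agent.Lib.MP_abd978_an.H65

variable {n : ℕ} {p : ℝ}

theorem conj_dx (hp : 1 < p) : (dx p).HolderConjugate p :=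
  (Real.HolderConjugate.conjExponent hp).symm

/-- Hoelder's inequality for the pairing of `L^{p'}` and `L^p` -/
theorem pairing (hp : 1 < p) {ν : Measure (E n)} {H V : E n → E n}
    (hH : MemLp H (ENNReal.ofReal (dx p)) ν) (hV : MemLp V (ENNReal.ofReal p) ν) :
    Integrable (fun x => ⟪H x, V x⟫) ν ∧ |∫ x, ⟪H x, V x⟫ ∂ν| ≤
      (∫ x, ‖H x‖ ^ dx p ∂ν) ^ (1 / dx p) * (∫ x, ‖V x‖ ^ p ∂ν) ^ (1 / p) := by
  have hc := conj_dx hp
  have : ENNReal.HolderConjugate (ENNReal.ofReal (dx p)) (ENNReal.ofReal p) := hc.ennrealOfReal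
  have h1 : Integrable (fun x => ‖H x‖ * ‖V x‖) ν := hH.norm.integrable_mul hV.norm
  have h2 : Integrable (fun x => ⟪H x, V x⟫) ν :=
    h1.mono' (hH.1.inner hV.1) (Eventually.of_forall fun x => norm_inner_le_norm (𝕜 := ℝ) _ _)
  refine ⟨h2, ?_⟩
  refine (norm_integral_le_of_norm_le h1
    (Eventually.of_forall fun x => norm_inner_le_norm (𝕜 := ℝ) (H x) (V x))).trans ?_
  exact integral_mul_le_Lp_mul_Lq_of_nonneg hc (Eventually.of_forall fun x => norm_nonneg _)
    (Eventually.of_forall fun x => norm_nonneg _) hH.norm hV.norm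

/-- the functional `ξ ↦ ∫_D ⟪H, ξ⟫` -/
theorem exists_functional (hp : 1 < p) [Fact (1 ≤ ENNReal.ofReal p)] (D : Set (E n))
    {H : E n → E n} (hH : MemLp H (ENNReal.ofReal (dx p)) (volume.restrict D)) :
    ∃ Φ : Lp (E n) (ENNReal.ofReal p) (volume : Measure (E n)) →L[ℝ] ℝ,
      (∀ ξ, Φ ξ = ∫ x in D, ⟪H x, ξ x⟫) ∧
      ∀ ξ, |Φ ξ| ≤ (∫ x in D, ‖H x‖ ^ dx p) ^ (1 / dx p) * ‖ξ‖ := by
  have hint : ∀ ξ : Lp (E n) (ENNReal.ofReal p) (volume : Measure (E n)),
      Integrable (fun x => ⟪H x, ξ x⟫) (volume.restrict D) :=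
    fun ξ => (pairing hp hH ((Lp.memLp ξ).restrict D)).1
  have hbd : ∀ ξ : Lp (E n) (ENNReal.ofReal p) (volume : Measure (E n)),
      |∫ x in D, ⟪H x, ξ x⟫| ≤ (∫ x in D, ‖H x‖ ^ dx p) ^ (1 / dx p) * ‖ξ‖ := by
    intro ξ
    refine (pairing hp hH ((Lp.memLp ξ).restrict D)).2.trans ?_
    refine mul_le_mul_of_nonneg_left ?_
      (Real.rpow_nonneg (integral_nonneg fun x => by positivity) _)
    rw [lp_norm_eq hp]
    have h1 : Integrable (fun x => ‖ξ x‖ ^ p) (volume : Measure (E n)) := by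
      have h2 := (Lp.memLp ξ).integrable_norm_rpow (ofReal_ne_zero' hp) ENNReal.ofReal_ne_top
      rwa [toReal_ofReal' hp] at h2
    refine Real.rpow_le_rpow (integral_nonneg fun x => by positivity) ?_ (by positivity)
    exact setIntegral_le_integral h1 (Eventually.of_forall fun x => by positivity)
  refine ⟨LinearMap.mkContinuous
    { toFun := fun ξ => ∫ x in D, ⟪H x, ξ x⟫
      map_add' := by
        intro η η'
        rw [← integral_add (hint η) (hint η')]
        refine integral_congr_ae ?_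
        filter_upwards [ae_restrict_of_ae (Lp.coeFn_add η η')] with x hx
        rw [hx, Pi.add_apply, inner_add_right]
      map_smul' := by
        intro c η
        rw [RingHom.id_apply, smul_eq_mul, ← integral_const_mul]
        refine integral_congr_ae ?_
        filter_upwards [ae_restrict_of_ae (Lp.coeFn_smul c η)] with x hx
        rw [hx, Pi.smul_apply, inner_smul_right] }
    ((∫ x in D, ‖H x‖ ^ dx p) ^ (1 / dx p)) fun ξ => hbd ξ, fun ξ => rfl, hbd⟩

/-- elements of the closure of the gradients of test functions are gradients -/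
theorem exists_h0 (hS : Sob1Statement) {μ : Measure (E n)} [Fact (1 ≤ ENNReal.ofReal p)]
    (hgeo : Geo p μ) {D : Set (E n)} {z : E n} {R : ℝ} (hDR : D ⊆ ball z R)
    (ξ : Lp (E n) (ENNReal.ofReal p) μ) (hξ : ξ ∈ (gradSub p μ D).topologicalClosure) :
    ∃ u : E n → ℝ, H0 μ p D u ξ := by
  have hp := hgeo.hp
  have hp0 : 0 < p := by linarith
  have := hgeo.lf
  obtain ⟨ξs, hξs, hlim⟩ := mem_closure_iff_seq_limit.1
    (show ξ ∈ closure ((gradSub p μ D : Submodule ℝ _) : Set (Lp (E n) (ENNReal.ofReal p) μ)) from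
      by rwa [← SetLike.mem_coe, Submodule.topologicalClosure_coe] at hξ)
  choose φ hφT hφx using hξs
  obtain ⟨C, hC, hsob⟩ := hS n p μ hgeo
  set R' : ℝ := max R 1 with hR'
  have hR'0 : 0 < R' := lt_max_of_lt_right one_pos
  have hDR' : D ⊆ ball z R' := hDR.trans (ball_subset_ball (le_max_left _ _))
  set f : ℕ → Lp ℝ (ENNReal.ofReal p) μ := fun i =>
    ((hφT i).memLp (μ := μ) (ENNReal.ofReal p)).toLp _ with hf
  have hfx : ∀ i, ∀ᵐ x ∂μ, f i x = φ i x := fun i => MemLp.coeFn_toLp _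
  have hnormR : ∀ h : Lp ℝ (ENNReal.ofReal p) μ, ‖h‖ = (∫ x, ‖h x‖ ^ p ∂μ) ^ (1 / p) := by
    intro h
    rw [Lp.norm_def, (Lp.memLp h).eLpNorm_eq_integral_rpow_norm (ofReal_ne_zero' hp)
      ENNReal.ofReal_ne_top, toReal_ofReal' hp, ENNReal.toReal_ofReal (by positivity), one_div]
  have hdist : ∀ i j, ‖f i - f j‖ ≤ (C * R' ^ p) ^ (1 / p) * ‖ξs i - ξs j‖ := by
    intro i j
    have hT : Test (ball z R') (fun x => φ i x + (-1) * φ j x) :=
      (test_add (hφT i) (test_const_mul (-1) (hφT j))).mono hDR'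
    have h1 := hsob z R' _ _ hR'0 (hT.h0 (μ := μ) (p := p))
    have h2 : ∫ x, ‖(f i - f j) x‖ ^ p ∂μ = ∫ x, |φ i x + (-1) * φ j x| ^ p ∂μ := by
      refine integral_congr_ae ?_
      filter_upwards [Lp.coeFn_sub (f i) (f j), hfx i, hfx j] with x hx hx' hx''
      rw [hx, Pi.sub_apply, hx', hx'', Real.norm_eq_abs]
      congr 2
      ring
    have h3 : ∫ x, ‖(ξs i - ξs j) x‖ ^ p ∂μ =
        ∫ x, ‖∇ (fun x => φ i x + (-1) * φ j x) x‖ ^ p ∂μ := by
      refine integral_congr_ae ?_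
      filter_upwards [Lp.coeFn_sub (ξs i) (ξs j), hφx i, hφx j] with x hx hx' hx''
      rw [hx, Pi.sub_apply, hx', hx'', grad_add (test_diff (hφT i) x)
        (test_diff (test_const_mul (-1) (hφT j)) x), grad_const_mul (-1) (test_diff (hφT j) x)]
      congr 2
      rw [neg_one_smul, sub_eq_add_neg]
    rw [hnormR, lp_norm_eq hp, h2, h3, ← Real.mul_rpow (by positivity)
      (integral_nonneg fun x => by positivity)]
    exact Real.rpow_le_rpow (integral_nonneg fun x => by positivity) h1 (by positivity)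
  have hcauchy : CauchySeq f := by
    have hc := hlim.cauchySeq
    set L := (C * R' ^ p) ^ (1 / p) with hL
    have hL0 : 0 ≤ L := by positivity
    rw [Metric.cauchySeq_iff] at hc ⊢
    intro ε hε
    obtain ⟨N, hN'⟩ := hc (ε / (L + 1)) (by positivity)
    refine ⟨N, fun i hi j hj => ?_⟩
    have h1 := hN' i hi j hj
    rw [dist_eq_norm] at h1 ⊢
    calc ‖f i - f j‖ ≤ L * ‖ξs i - ξs j‖ := hdist i j
      _ ≤ (L + 1) * ‖ξs i - ξs j‖ := mul_le_mul_of_nonneg_right (by linarith) (norm_nonneg _)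
      _ < (L + 1) * (ε / (L + 1)) := mul_lt_mul_of_pos_left h1 (by positivity)
      _ = ε := by field_simp
  obtain ⟨u0, hu0⟩ := cauchySeq_tendsto_of_complete hcauchy
  refine ⟨u0, Lp.memLp u0, Lp.memLp ξ, φ, hφT, ?_, ?_⟩
  · have h1 := (Lp.tendsto_Lp_iff_tendsto_eLpNorm' f u0).1 hu0
    refine h1.congr fun i => eLpNorm_congr_ae ?_
    filter_upwards [hfx i] with x hx
    rw [Pi.sub_apply, hx]
  · have h1 := (Lp.tendsto_Lp_iff_tendsto_eLpNorm' ξs ξ).1 hlim
    refine h1.congr fun i => eLpNorm_congr_ae ?_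
    filter_upwards [hφx i] with x hx
    rw [Pi.sub_apply, hx]

/-- gradients of elements of `H_0` are in the closure of the gradients of test functions -/
theorem h0_mem {μ : Measure (E n)} [IsLocallyFiniteMeasure μ]
    [Fact (1 ≤ ENNReal.ofReal p)] {D : Set (E n)} {ψ : E n → ℝ} {V : E n → E n}
    (h : H0 μ p D ψ V) : ∃ ζ : Lp (E n) (ENNReal.ofReal p) μ,
      ζ ∈ (gradSub p μ D).topologicalClosure ∧ ∀ᵐ x ∂μ, ζ x = V x := by
  obtain ⟨-, hV, φ, hφ, -, hlim⟩ := h
  refine ⟨hV.toLp V, ?_, MemLp.coeFn_toLp _⟩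
  rw [← SetLike.mem_coe, Submodule.topologicalClosure_coe]
  refine mem_closure_of_tendsto (b := atTop) (f := fun i =>
    ((hφ i).memLp_grad (μ := μ) (ENNReal.ofReal p)).toLp _) ?_ (Eventually.of_forall fun i => ?_)
  · refine (Lp.tendsto_Lp_iff_tendsto_eLpNorm' _ _).2 ?_
    refine hlim.congr fun i => eLpNorm_congr_ae ?_
    filter_upwards [MemLp.coeFn_toLp ((hφ i).memLp_grad (μ := μ) (ENNReal.ofReal p)),
      MemLp.coeFn_toLp hV] with x hx hx'
    rw [Pi.sub_apply, hx, hx']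
  · exact ⟨φ i, hφ i, MemLp.coeFn_toLp _⟩

theorem rpow_sub_one_mul {t : ℝ} (hp : 1 < p) (ht : 0 ≤ t) : t ^ p = t ^ (p - 1) * t := by
  rcases ht.eq_or_lt with h | h
  · rw [← h, Real.zero_rpow (by linarith), mul_zero]
  · rw [← Real.rpow_add_one h.ne']
    congr 1
    ring

/-- integrals against functions which vanish outside `D` -/
theorem setInt {D : Set (E n)} (hD : MeasurableSet D) {H V : E n → E n}
    (hV : ∀ᵐ x ∂((volume : Measure (E n)).restrict Dᶜ), V x = 0) :
    ∫ x in D, ⟪H x, V x⟫ = ∫ x, ⟪H x, V x⟫ := by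
  refine setIntegral_eq_integral_of_ae_compl_eq_zero ?_
  rw [ae_restrict_iff' hD.compl] at hV
  filter_upwards [hV] with x hx hxD
  rw [hx hxD, inner_zero_right]

theorem solve (hI : IntgStatement) (hS : Sob1Statement) (hN : NestStatement)
    (hM : MintyStatement) (hO : OplStatement) (hC : H0cStatement) : SolveStatement := by
  intro n p a α β R H hn hnp hop hR hH
  have hp := hop.hp
  have hp0 : 0 < p := by linarith
  have hα := hop.hα
  have : Fact (1 ≤ ENNReal.ofReal p) := ⟨one_le_ofReal hp⟩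
  obtain ⟨F, hF, hmono, hhemi⟩ := hO n p volume a α β hop
  obtain ⟨Φ, hΦ, hΦb⟩ := exists_functional hp (ball (0 : E n) R) hH
  set h₀ : ℝ := (∫ x in ball (0 : E n) R, ‖H x‖ ^ dx p) ^ (1 / dx p) with hh₀
  have hh0 : 0 ≤ h₀ := Real.rpow_nonneg (integral_nonneg fun x => by positivity) _
  set G0 : Submodule ℝ (Lp (E n) (ENNReal.ofReal p) (volume : Measure (E n))) :=
    (gradSub p volume (ball 0 R)).topologicalClosure with hG0
  set M : ℝ := (h₀ / α) ^ (1 / (p - 1)) + 1 with hMdef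
  have hM0 : 0 < M := by positivity
  let K : Set (Lp (E n) (ENNReal.ofReal p) (volume : Measure (E n))) :=
    {ξ | ξ ∈ G0 ∧ ‖ξ‖ ≤ M}
  have hK0 : (0 : Lp (E n) (ENNReal.ofReal p) (volume : Measure (E n))) ∈ K :=
    ⟨G0.zero_mem, by rw [norm_zero]; exact hM0.le⟩
  have hKcl : IsClosed K := by
    refine IsClosed.inter (Submodule.isClosed_topologicalClosure _) ?_
    exact isClosed_le continuous_norm continuous_const
  have hKcv : Convex ℝ K := by
    refine (Submodule.convex G0).inter ?_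
    have h1 := convex_closedBall (0 : Lp (E n) (ENNReal.ofReal p) (volume : Measure (E n))) M
    refine fun x hx y hy s t hs ht hst => ?_
    have h2 := h1 (mem_closedBall_zero_iff.2 hx) (mem_closedBall_zero_iff.2 hy) hs ht hst
    exact mem_closedBall_zero_iff.1 h2
  have hKbd : Bornology.IsBounded K :=
    (isBounded_iff_forall_norm_le).2 ⟨M, fun x hx => hx.2⟩
  have hFip : Fip K := hN n p volume K hp hKcl hKcv hKbd
  obtain ⟨ξ, hξK, hξ⟩ := hM (Lp (E n) (ENNReal.ofReal p) (volume : Measure (E n))) K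
    (fun x => F x - Φ) ⟨0, hK0⟩ hKcv hFip
    (fun x y => by
      have h1 := hmono x y
      rwa [sub_sub_sub_cancel_right])
    (fun x y => by
      have h1 := hhemi x y
      exact h1.sub tendsto_const_nhds)
  -- the norm of `ξ` is less than `M`
  have hlow : α * ‖ξ‖ ^ p ≤ F ξ ξ := by
    rw [hF, lp_norm_rpow hp, ← integral_const_mul]
    have h1 : Integrable (fun x => ‖ξ x‖ ^ p) (volume : Measure (E n)) := by
      have h2 := (Lp.memLp ξ).integrable_norm_rpow (ofReal_ne_zero' hp) ENNReal.ofReal_ne_top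
      rwa [toReal_ofReal' hp] at h2
    exact integral_mono (h1.const_mul α)
      (hI n p volume volume a α β ξ ξ hop (Lp.memLp ξ) (Lp.memLp ξ)).1 fun x => hop.ell x (ξ x)
  have hlt : ‖ξ‖ < M := by
    have h0 : 0 ≤ (F ξ - Φ) (0 - ξ) := hξ 0 hK0
    rw [zero_sub, map_neg, sub_apply] at h0
    have h1 : α * ‖ξ‖ ^ p ≤ h₀ * ‖ξ‖ := by
      have := (le_abs_self _).trans (hΦb ξ)
      linarith
    rcases (norm_nonneg ξ).eq_or_lt with h3 | h3
    · rw [← h3]
      exact hM0
    · rw [rpow_sub_one_mul hp h3.le, ← mul_assoc] at h1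
      have h4 : α * ‖ξ‖ ^ (p - 1) ≤ h₀ := le_of_mul_le_mul_right h1 h3
      have h5 : ‖ξ‖ ^ (p - 1) ≤ h₀ / α := by
        rw [le_div_iff₀ hα]
        linarith
      have h6 : ‖ξ‖ ≤ (h₀ / α) ^ (1 / (p - 1)) := by
        have h7 := Real.rpow_le_rpow (by positivity) h5 (show 0 ≤ 1 / (p - 1) by
          have : 0 < p - 1 := by linarith
          positivity)
        rw [← Real.rpow_mul h3.le, mul_one_div_cancel (by linarith), Real.rpow_one] at h7
        exact h7
      linarith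
  -- `F ξ - Φ` vanishes on `G0`
  have hge : ∀ ζ ∈ G0, 0 ≤ (F ξ - Φ) ζ := by
    intro ζ hζ
    set t : ℝ := (M - ‖ξ‖) / (‖ζ‖ + 1) with ht
    have ht0 : 0 < t := div_pos (by linarith) (by positivity)
    have hmem : ξ + t • ζ ∈ K := by
      refine ⟨G0.add_mem hξK.1 (G0.smul_mem t hζ), ?_⟩
      refine (norm_add_le _ _).trans ?_
      rw [norm_smul, Real.norm_of_nonneg ht0.le]
      have h1 : t * ‖ζ‖ ≤ M - ‖ξ‖ := by
        rw [ht, div_mul_eq_mul_div, div_le_iff₀ (by positivity)]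
        exact mul_le_mul_of_nonneg_left (show ‖ζ‖ ≤ ‖ζ‖ + 1 by linarith)
          (show 0 ≤ M - ‖ξ‖ by linarith)
      linarith
    have h2 := hξ _ hmem
    rw [add_sub_cancel_left, map_smul, smul_eq_mul] at h2
    exact nonneg_of_mul_nonneg_right h2 ht0
  have hzero : ∀ ζ ∈ G0, F ξ ζ = Φ ζ := by
    intro ζ hζ
    have h1 := hge ζ hζ
    have h2 := hge (-ζ) (G0.neg_mem hζ)
    rw [map_neg] at h2
    rw [sub_apply] at h1 h2
    linarith
  -- the function
  obtain ⟨u0, hu0⟩ := exists_h0 hS hop.toGeo (z := 0) (R := R) le_rfl ξ hξK.1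
  obtain ⟨C, hC0, hC1⟩ := hC n p hn hnp
  obtain ⟨u, huc, hue, -, -⟩ := hC1 (ball 0 R) 0 R u0 ξ hR isOpen_ball le_rfl hu0
  refine ⟨u, ξ, ?_, huc, ?_⟩
  · obtain ⟨h1, h2, φ, h3, h4, h5⟩ := hu0
    refine ⟨h1.ae_eq hue.symm, h2, φ, h3, ?_, h5⟩
    refine h4.congr fun i => eLpNorm_congr_ae ?_
    filter_upwards [hue] with x hx
    rw [hx]
  · intro ψ V hV
    obtain ⟨ζ, hζ, hζV⟩ := h0_mem hV
    have h1 := hzero ζ hζ
    rw [hF, hΦ] at h1
    obtain ⟨-, hVz⟩ := hV.ae_eq_zero hp measurableSet_ball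
    rw [← setInt (H := H) measurableSet_ball hVz]
    have h2 : ∫ x, ⟪a x (ξ x), ζ x⟫ = ∫ x, ⟪a x (ξ x), V x⟫ := by
      refine integral_congr_ae ?_
      filter_upwards [hζV] with x hx
      rw [hx]
    have h3 : ∫ x in ball (0 : E n) R, ⟪H x, ζ x⟫ = ∫ x in ball (0 : E n) R, ⟪H x, V x⟫ := by
      refine integral_congr_ae ?_
      filter_upwards [ae_restrict_of_ae hζV] with x hx
      rw [hx]
    rw [← h2, ← h3]
    exact h1

theorem sbound (hI : IntgStatement) : SboundStatement := by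
  intro n p a α β R H u U hn hnp hop hR hH hs
  have hp := hop.hp
  have hp0 : 0 < p := by linarith
  have hp1 : 0 < p - 1 := by linarith
  have hα := hop.hα
  have hβ : 0 ≤ β := hop.hα.le.trans hop.hαβ
  have hq : 0 < dx p := div_pos hp0 hp1
  obtain ⟨hU, -⟩ := hs.h0.2
  obtain ⟨-, hUz⟩ := hs.h0.ae_eq_zero hp measurableSet_ball
  have hUi : Integrable (fun x => ‖U x‖ ^ p) (volume : Measure (E n)) := by
    have h2 := hU.integrable_norm_rpow (ofReal_ne_zero' hp) ENNReal.ofReal_ne_top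
    rwa [toReal_ofReal' hp] at h2
  set h₀ : ℝ := (∫ x in ball (0 : E n) R, ‖H x‖ ^ dx p) ^ (1 / dx p) with hh₀
  have hh0 : 0 ≤ h₀ := Real.rpow_nonneg (integral_nonneg fun x => by positivity) _
  set I : ℝ := ∫ x, ‖U x‖ ^ p with hIdef
  have hI0 : 0 ≤ I := integral_nonneg fun x => by positivity
  -- test with `u`
  have h1 : α * I ≤ h₀ * I ^ (1 / p) := by
    have e1 : α * I ≤ ∫ x, ⟪a x (U x), U x⟫ := by
      rw [hIdef, ← integral_const_mul]
      exact integral_mono (hUi.const_mul α) (hI n p volume volume a α β U U hop hU hU).1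
        fun x => hop.ell x (U x)
    have e2 := hs.eqn u U hs.h0
    rw [← setInt (H := H) measurableSet_ball hUz] at e2
    have e3 := (pairing hp hH (hU.restrict (ball 0 R))).2
    have e4 : (∫ x in ball (0 : E n) R, ‖U x‖ ^ p) ^ (1 / p) ≤ I ^ (1 / p) := by
      refine Real.rpow_le_rpow (integral_nonneg fun x => by positivity) ?_ (by positivity)
      exact setIntegral_le_integral hUi (Eventually.of_forall fun x => by positivity)
    calc α * I ≤ ∫ x, ⟪a x (U x), U x⟫ := e1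
      _ = ∫ x in ball (0 : E n) R, ⟪H x, U x⟫ := e2
      _ ≤ _ := (le_abs_self _).trans e3
      _ ≤ h₀ * I ^ (1 / p) := mul_le_mul_of_nonneg_left e4 hh0
  have h2 : I ^ ((p - 1) / p) ≤ h₀ / α := by
    rcases hI0.eq_or_lt with h3 | h3
    · rw [← h3, Real.zero_rpow (by positivity)]
      positivity
    · have h4 : I = I ^ ((p - 1) / p) * I ^ (1 / p) := by
        rw [← Real.rpow_add h3, ← add_div, sub_add_cancel, div_self hp0.ne', Real.rpow_one]
      have h5 : α * I ^ ((p - 1) / p) * I ^ (1 / p) ≤ h₀ * I ^ (1 / p) := by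
        rw [mul_assoc, ← h4]
        exact h1
      have h6 := le_of_mul_le_mul_right h5 (Real.rpow_pos_of_pos h3 _)
      rw [le_div_iff₀ hα]
      linarith
  -- the bound for `a(U)`
  have h3 : ∫ x, ‖a x (U x)‖ ^ dx p ≤ β ^ dx p * I := by
    rw [hIdef, ← integral_const_mul]
    refine integral_mono_of_nonneg (Eventually.of_forall fun x => by positivity)
      (hUi.const_mul _) (Eventually.of_forall fun x => ?_)
    have e1 := Real.rpow_le_rpow (norm_nonneg _) (hop.bdd x (U x)) hq.le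
    rw [Real.mul_rpow hβ (by positivity), ← Real.rpow_mul (norm_nonneg _)] at e1
    have e2 : (p - 1) * dx p = p := by
      rw [dx]
      field_simp
    rwa [e2] at e1
  have h4 : 1 / dx p = (p - 1) / p := by
    rw [dx, one_div_div]
  calc (∫ x, ‖a x (U x)‖ ^ dx p) ^ (1 / dx p) ≤ (β ^ dx p * I) ^ (1 / dx p) :=
        Real.rpow_le_rpow (integral_nonneg fun x => by positivity) h3 (by positivity)
    _ = β * I ^ ((p - 1) / p) := by
        rw [Real.mul_rpow (by positivity) hI0, ← Real.rpow_mul hβ, mul_one_div_cancel hq.ne',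
          Real.rpow_one, h4]
    _ ≤ β * (h₀ / α) := mul_le_mul_of_nonneg_left h2 hβ
    _ = β / α * h₀ := by ring

end Pool.Agent.Lib.MP_abd978_an.UN.H48
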